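import Pool.Graph.R_seed8.Y72.Dt.Main

/-!
# Vanishing of block sums for one large prime
-/

set_option autoImplicit false
set_option linter.unusedSectionVars false

namespace Pool.Agent.H414.W2

open Finset Pool.Agent.H23R2 H219.Wh
open Pool.Agent.Y72.Log
open scoped Classical

section main

variable {I S : Type*} [Fintype I] [Fintype S] {Γ : Type*} [Group Γ] {gr : S → Γ}
  {A B : I → I → S → ℤ}

/-- the predicate depends on the conjugacy class of the `l`-th power only -/
def Sat (l : ℕ) (X : Γ → Prop) : Prop := ∀ x y : Γ, IsConj (x ^ l) (y ^ l) → X x → X y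

lemma Sat.conj {l : ℕ} {X : Γ → Prop} (h : Sat l X) {x y : Γ} (hxy : IsConj x y) : X x ↔ X y :=
  ⟨h x y (H219.Wh.conj_pow_conj hxy l), h y x (H219.Wh.conj_pow_conj hxy.symm l)⟩

lemma ec_off (hb : Cen Γ) {C : ConjClasses Γ} (hC : C ∉ T0 gr) : ec gr A B hb (rep C) = 0 := by
  apply ec_zero
  intro s t hst
  apply hC
  have h1 : ConjClasses.mk (gr s * gr t) = C := (isConj_out_iff C _).1 hst
  rw [← h1]
  exact mem_T0 s t

/-- **one prime for all blocks** -/
theorem exists_block_prime (h : IP gr A B) (hb : Cen Γ)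
    (hA : ∀ l : ℕ, Odd l → ∀ i j a, A i j a ^ l = A i j a)
    (hB : ∀ l : ℕ, Odd l → ∀ i j a, B i j a ^ l = B i j a) {N : ℕ} (hN : N ≠ 0) :
    ∃ l : ℕ, l.Prime ∧ l ≡ 1 [MOD N] ∧ ∀ X : Γ → Prop, Sat l X → ¬ X 1 →
      ∑ C ∈ T0 gr with X (rep C), ec gr A B hb (rep C) = 0 := by
  -- a bound
  obtain ⟨K, hK⟩ : ∃ K : ℕ, ∀ s t : S, (ff hb (gr s * gr t) (gr s * gr t)).natAbs < K := by
    refine ⟨(∑ y : S × S, (ff hb (gr y.1 * gr y.2) (gr y.1 * gr y.2)).natAbs) + 1, ?_⟩
    intro s t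
    have h1 := Finset.single_le_sum (f := fun y : S × S =>
      (ff hb (gr y.1 * gr y.2) (gr y.1 * gr y.2)).natAbs) (fun y _ => Nat.zero_le _)
      (Finset.mem_univ (s, t))
    simp only at h1
    omega
  set K' : ℕ := ∑ U ∈ (T0 gr).powerset, (∑ C ∈ U, ec gr A B hb (rep C)).num.natAbs with hK'
  obtain ⟨l, hl, hlK, hlN⟩ := Nat.exists_prime_gt_modEq_one (k := N) (K + K' + 2) hN
  haveI : Fact l.Prime := ⟨hl⟩
  have hodd : Odd l := hl.odd_of_ne_two (by omega)
  refine ⟨l, hl, hlN, ?_⟩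
  intro R hR hR1
  have hRc : ∀ x y, IsConj x y → (R x ↔ R y) := fun x y hxy => hR.conj hxy
  set x := ∑ C ∈ T0 gr with R (rep C), ec gr A B hb (rep C) with hx
  have hxK : x.num.natAbs ≤ K' := by
    rw [hK', hx]
    exact Finset.single_le_sum (f := fun U : Finset (ConjClasses Γ) =>
      (∑ C ∈ U, ec gr A B hb (rep C)).num.natAbs) (fun _ _ => Nat.zero_le _)
      (Finset.mem_powerset.2 (Finset.filter_subset _ _))
  have hzero : ∀ c : Γ, c ≠ 1 → ec gr A B hb (c ^ l) = 0 := by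
    intro c hc
    apply ec_zero
    intro s t hst
    have h1 : gr s * gr t ≠ 1 := by
      intro h2
      rw [h2] at hst
      exact pow_ne hb hc hl.ne_zero (isConj_one_left.1 hst)
    exact large hb h1 (lt_of_lt_of_le (hK s t) (by omega)) c hst.symm
  have hnorm : padicNorm l x ≤ (l : ℚ) ^ (-1 : ℤ) := by
    rw [hx, ← Finset.sum_fiberwise_of_maps_to (s := (T0 gr).filter (fun C => R (rep C)))
      (t := ((T0 gr).filter (fun C => R (rep C))).image
        (fun C => ConjClasses.mk ((rep C) ^ l)))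
      (g := fun C => ConjClasses.mk ((rep C) ^ l))
      (fun C hC => Finset.mem_image_of_mem _ hC)]
    apply padicNorm.sum_le'
    · intro D hD
      rw [Finset.mem_image] at hD
      obtain ⟨C0, hC0, rfl⟩ := hD
      rw [Finset.mem_filter] at hC0
      have hc1 : rep C0 ≠ 1 := by
        intro hc
        rw [hc] at hC0
        exact hR1 hC0.2
      have h1 := block_sum h hb hl (hA l hodd) (hB l hodd) hc1 (hzero _ hc1)
        (Finset.Subset.refl (T0 gr))
      convert h1 using 3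
      ext C
      simp only [Finset.mem_filter]
      constructor
      · rintro ⟨⟨h2, _⟩, h3⟩
        exact ⟨h2, h3⟩
      · rintro ⟨h2, h3⟩
        refine ⟨⟨h2, ?_⟩, h3⟩
        exact hR _ _ (ConjClasses.mk_eq_mk_iff_isConj.1 h3).symm hC0.2
    · positivity
  by_contra hx0
  have h1 : padicNorm l ((x.num : ℤ) : ℚ) ≤ (l : ℚ) ^ (-((1 : ℕ) : ℤ)) := by
    have h2 : ((x.num : ℤ) : ℚ) = x * (x.den : ℚ) := (Rat.mul_den_eq_num x).symm
    rw [h2, padicNorm.mul]
    have h3 : padicNorm l ((x.den : ℕ) : ℚ) ≤ 1 := padicNorm.of_nat x.den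
    calc padicNorm l x * padicNorm l (x.den : ℚ) ≤ (l : ℚ) ^ (-1 : ℤ) * 1 :=
          mul_le_mul hnorm h3 (padicNorm.nonneg _) (by positivity)
      _ = _ := by rw [mul_one]; rfl
  have h4 := (padicNorm.dvd_iff_norm_le (p := l)).2 h1
  rw [pow_one] at h4
  have h5 : l ∣ x.num.natAbs := Int.natCast_dvd.1 h4
  have h6 := Nat.le_of_dvd (Int.natAbs_pos.2 (Rat.num_ne_zero.2 hx0)) h5
  omega

end main

end Pool.Agent.H414.W2
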