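import Pool.Graph.R_seed8.Y72.Log.Coc
import Mathlib.Algebra.Group.Action.Basic
import Mathlib.Algebra.BigOperators.Finprod
import Mathlib.Data.Set.Card

/-!
# Commensurated sets and additive functions on centralisers
-/

set_option autoImplicit false
set_option linter.unusedSectionVars false

namespace Pool.Agent.H414.W2

open Pool.Agent.Y72.Log
open scoped Classical

section comm

variable {H : Type*} [Group H] {X : Type*} [MulAction H X] {S : Set X}

/-- the set is commensurated -/
def Com (H : Type*) [Group H] {X : Type*} [MulAction H X] (S : Set X) : Prop :=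
  ∀ g : H, {x | x ∈ S ∧ g • x ∉ S}.Finite

lemma Com.diff (h : Com H S) (g : H) : {x | ¬ (x ∈ S ↔ g • x ∈ S)}.Finite := by
  have h1 : {x | x ∉ S ∧ g • x ∈ S}.Finite := by
    have h2 := (h g⁻¹).preimage (f := fun x => g • x) ((MulAction.injective g).injOn)
    apply h2.subset
    rintro x ⟨h3, h4⟩
    refine ⟨h4, ?_⟩
    rw [inv_smul_smul]
    exact h3
  apply ((h g).union h1).subset
  intro x hx
  by_cases h3 : x ∈ S
  · left
    exact ⟨h3, fun h4 => hx ⟨fun _ => h4, fun _ => h3⟩⟩
  · right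
    refine ⟨h3, ?_⟩
    by_contra h4
    exact hx ⟨fun h5 => absurd h5 h3, fun h5 => absurd h5 h4⟩

/-- the points which leave the set -/
def Yp (S : Set X) (c : H) : Set X :=
  {x | ∃ N : ℕ, ∀ n : ℕ, N ≤ n → (c ^ n)⁻¹ • x ∈ S ∧ c ^ n • x ∉ S}

lemma Yp.np {c : H} {x : X} (h : x ∈ Yp S c) {m : ℕ} (hm : 0 < m) : c ^ m • x ≠ x := by
  intro h1
  obtain ⟨N, hN⟩ := h
  have h2 : ∀ j : ℕ, c ^ (m * j) • x = x := by
    intro j
    induction j with
    | zero => rw [mul_zero, pow_zero, one_smul]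
    | succ j ih => rw [Nat.mul_succ, pow_add, mul_smul, h1, ih]
  have h3 := hN (m * N) (Nat.le_mul_of_pos_left N hm)
  have h4 := h2 N
  rw [h4] at h3
  apply h3.2
  have h5 : (c ^ (m * N))⁻¹ • x = x := by
    rw [inv_smul_eq_iff]
    exact h4.symm
  rw [← h5]
  exact h3.1

lemma Yp.inj {c : H} {x : X} (h : x ∈ Yp S c) : Function.Injective (fun n : ℕ => c ^ n • x) := by
  intro a b hab
  rcases Nat.lt_trichotomy a b with h1 | h1 | h1
  · exfalso
    apply Yp.np h (m := b - a) (by omega)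
    have h2 : c ^ b = c ^ a * c ^ (b - a) := by rw [← pow_add, Nat.add_sub_cancel' h1.le]
    have h3 : c ^ a • x = c ^ a • (c ^ (b - a) • x) := by
      rw [← mul_smul, ← h2]
      exact hab
    exact (MulAction.injective (c ^ a) h3).symm
  · exact h1
  · exfalso
    apply Yp.np h (m := a - b) (by omega)
    have h2 : c ^ a = c ^ b * c ^ (a - b) := by rw [← pow_add, Nat.add_sub_cancel' h1.le]
    have h3 : c ^ b • x = c ^ b • (c ^ (a - b) • x) := by
      rw [← mul_smul, ← h2]
      exact hab.symm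
    exact (MulAction.injective (c ^ b) h3).symm

lemma Yp.inj' {c : H} {x : X} (h : x ∈ Yp S c) :
    Function.Injective (fun n : ℕ => (c ^ n)⁻¹ • x) := by
  intro a b hab
  have h1 : (c ^ a)⁻¹ • x = (c ^ b)⁻¹ • x := hab
  rw [inv_smul_eq_iff, ← mul_smul] at h1
  have h2 : c ^ b • x = c ^ a • x := by
    have h3 : c ^ b • x = c ^ b • ((c ^ a * (c ^ b)⁻¹) • x) := by rw [← h1]
    rw [h3, ← mul_smul]
    congr 1
    have h4 : Commute (c ^ a) (c ^ b)⁻¹ := ((Commute.refl c).pow_pow a b).inv_right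
    rw [h4.eq, mul_inv_cancel_left]
  exact (Yp.inj h h2).symm

lemma ev_of_fin {f : ℕ → X} (hf : Function.Injective f) {F : Set X} (hF : F.Finite) :
    ∃ N : ℕ, ∀ n, N ≤ n → f n ∉ F := by
  have h1 := (hF.preimage hf.injOn).bddAbove
  obtain ⟨B, hB⟩ := h1
  refine ⟨B + 1, fun n hn hc => ?_⟩
  have := hB (show n ∈ f ⁻¹' F from hc)
  omega

lemma Yp.smul (hS : Com H S) {c z : H} (hz : z * c = c * z) {x : X} (h : x ∈ Yp S c) :
    z • x ∈ Yp S c := by
  obtain ⟨N1, h1⟩ := ev_of_fin (Yp.inj h) (hS.diff z)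
  obtain ⟨N2, h2⟩ := ev_of_fin (Yp.inj' h) (hS.diff z)
  obtain ⟨N, hN⟩ := h
  refine ⟨N + N1 + N2, fun n hn => ?_⟩
  obtain ⟨h3, h4⟩ := hN n (by omega)
  have h5 := h1 n (by omega)
  have h6 := h2 n (by omega)
  simp only [Set.mem_ofPred_eq, not_not] at h5 h6
  have hz' : Commute z c := hz
  constructor
  · have h7 : (c ^ n)⁻¹ • z • x = z • (c ^ n)⁻¹ • x := by
      rw [← mul_smul, ← mul_smul, ((hz'.pow_right n).inv_right).eq]
    rw [h7]
    exact h6.1 h3
  · have h7 : c ^ n • z • x = z • c ^ n • x := by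
      rw [← mul_smul, ← mul_smul, (hz'.pow_right n).eq]
    rw [h7]
    exact fun h8 => h4 (h5.2 h8)

lemma Yp.smul_iff (hS : Com H S) {c z : H} (hz : z * c = c * z) {x : X} :
    z • x ∈ Yp S c ↔ x ∈ Yp S c := by
  refine ⟨fun h => ?_, Yp.smul hS hz⟩
  have hz' : Commute z c := hz
  have h1 := Yp.smul hS (z := z⁻¹) hz'.inv_left h
  rwa [inv_smul_smul] at h1

/-- the indicator function -/
noncomputable def ind (S : Set X) (c : H) (x : X) : ℤ := if x ∈ S ∧ x ∈ Yp S c then 1 else 0

lemma ind_supp (hS : Com H S) {c z : H} (hz : z * c = c * z) :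
    (Function.support (fun x => ind S c x - ind S c (z • x))).Finite := by
  apply (hS.diff z).subset
  intro x hx hc
  apply hx
  show ind S c x - ind S c (z • x) = 0
  unfold ind
  have h1 : (x ∈ S ∧ x ∈ Yp S c) ↔ (z • x ∈ S ∧ z • x ∈ Yp S c) := by
    rw [hc, Yp.smul_iff hS hz]
  by_cases h2 : x ∈ S ∧ x ∈ Yp S c
  · rw [if_pos h2, if_pos (h1.1 h2), sub_self]
  · rw [if_neg h2, if_neg (fun h3 => h2 (h1.2 h3)), sub_self]

/-- the flow -/
noncomputable def flow (S : Set X) (c z : H) : ℤ := ∑ᶠ x : X, (ind S c x - ind S c (z • x))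

lemma flow_add (hS : Com H S) (c : H) : AddOn c (flow S c) := by
  intro z w hz hw
  unfold flow
  have h1 : (fun x => ind S c x - ind S c ((z * w) • x)) =
      fun x => (ind S c x - ind S c (w • x)) + (ind S c (w • x) - ind S c (z • (w • x))) := by
    funext x
    rw [mul_smul]
    ring
  have h2 : (Function.support (fun x => ind S c (w • x) - ind S c (z • (w • x)))).Finite := by
    have h3 := (ind_supp (S := S) hS hz).preimage (f := fun x => w • x)
      ((MulAction.injective w).injOn)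
    exact h3
  rw [h1, finsum_add_distrib (ind_supp hS hw) h2]
  have h3 : ∑ᶠ x, (ind S c (w • x) - ind S c (z • (w • x))) =
      ∑ᶠ x, (ind S c x - ind S c (z • x)) :=
    finsum_comp_equiv (MulAction.toPerm w) (f := fun x => ind S c x - ind S c (z • x))
  rw [h3, add_comm]

/-- the first change -/
lemma first_change {c : H} {x : X} {k : ℕ} (h0 : x ∉ S) (hk : c ^ k • x ∈ S) :
    ∃ i, i < k ∧ c ^ i • x ∉ S ∧ c ^ (i + 1) • x ∈ S := by
  induction k with
  | zero => rw [pow_zero, one_smul] at hk; exact absurd hk h0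
  | succ k ih =>
    by_cases h : c ^ k • x ∈ S
    · obtain ⟨i, h1, h2, h3⟩ := ih h
      exact ⟨i, by omega, h2, h3⟩
    · exact ⟨k, by omega, h, hk⟩

theorem flow_ne (hS : Com H S) {c : H} {x : X} (hx : x ∈ Yp S c) : flow S c c ≠ 0 := by
  -- a bound for the changes
  have hD : {d | d ∈ Yp S c ∧ d ∉ S ∧ c • d ∈ S}.Finite := by
    apply (hS.diff c).subset
    rintro d ⟨_, h2, h3⟩ h4
    exact h2 (h4.2 h3)
  obtain ⟨N, hN⟩ : ∃ N : ℕ, ∀ d ∈ {d | d ∈ Yp S c ∧ d ∉ S ∧ c • d ∈ S}, ∀ n : ℕ, N ≤ n →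
      (c ^ n)⁻¹ • d ∈ S ∧ c ^ n • d ∉ S := by
    have h1 : ∀ d : X, ∃ N : ℕ, d ∈ Yp S c → ∀ n : ℕ, N ≤ n →
        (c ^ n)⁻¹ • d ∈ S ∧ c ^ n • d ∉ S := by
      intro d
      by_cases hd : d ∈ Yp S c
      · obtain ⟨N, hN⟩ := hd
        exact ⟨N, fun _ => hN⟩
      · exact ⟨0, fun h => absurd h hd⟩
    choose Nf hNf using h1
    refine ⟨hD.toFinset.sup Nf, ?_⟩
    intro d hd n hn
    apply hNf d hd.1
    exact (Finset.le_sup (hD.mem_toFinset.2 hd)).trans hn
  obtain ⟨Nx, hNx⟩ := id hx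
  set k := 2 * N + 2 * Nx with hk
  have hck : c ^ k * c = c * c ^ k := by rw [← pow_succ, ← pow_succ']
  -- no returns
  have hret : ∀ y : X, 0 ≤ ind S c y - ind S c (c ^ k • y) := by
    intro y
    unfold ind
    by_cases h1 : y ∈ S ∧ y ∈ Yp S c
    · rw [if_pos h1]
      split_ifs <;> norm_num
    · rw [if_neg h1, if_neg]
      · norm_num
      · rintro ⟨h2, h3⟩
        have h4 := (Yp.smul_iff hS hck).1 h3
        have h5 : y ∉ S := fun h => h1 ⟨h, h4⟩
        obtain ⟨i, h6, h7, h8⟩ := first_change h5 h2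
        have hci : c ^ i * c = c * c ^ i := by rw [← pow_succ, ← pow_succ']
        have h9 : c ^ i • y ∈ {d | d ∈ Yp S c ∧ d ∉ S ∧ c • d ∈ S} := by
          refine ⟨(Yp.smul_iff hS hci).2 h4, h7, ?_⟩
          rw [← mul_smul, ← pow_succ']
          exact h8
        have h10 : i < N := by
          by_contra h
          have h11 := (hN _ h9 i (by omega)).1
          rw [inv_smul_smul] at h11
          exact h5 h11
        have h12 := (hN _ h9 (k - i) (by omega)).2
        apply h12
        rw [← mul_smul, ← pow_add, Nat.sub_add_cancel h6.le]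
        exact h2
  have hpos : 0 < flow S c (c ^ k) := by
    unfold flow
    rw [finsum_eq_sum_of_support_subset (s := (ind_supp hS hck).toFinset) _ (by simp)]
    apply Finset.sum_pos' (fun y _ => hret y)
    have hy1 : (c ^ Nx)⁻¹ • x ∈ S := (hNx Nx le_rfl).1
    have hcN : c ^ Nx * c = c * c ^ Nx := by rw [← pow_succ, ← pow_succ']
    have hcN' : (c ^ Nx)⁻¹ * c = c * (c ^ Nx)⁻¹ := by
      have h1 : Commute (c ^ Nx) c := hcN
      exact h1.inv_left
    have hy2 : (c ^ Nx)⁻¹ • x ∈ Yp S c := (Yp.smul_iff hS hcN').2 hx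
    have hy3 : c ^ k • ((c ^ Nx)⁻¹ • x) ∉ S := by
      have h1 : c ^ k • ((c ^ Nx)⁻¹ • x) = c ^ (2 * N + Nx) • x := by
        have h2 : c ^ k = c ^ (2 * N + Nx) * c ^ Nx := by
          rw [← pow_add]
          congr 1
          omega
        rw [h2, mul_smul, smul_inv_smul]
      rw [h1]
      exact (hNx _ (by omega)).2
    have hval : ind S c ((c ^ Nx)⁻¹ • x) - ind S c (c ^ k • ((c ^ Nx)⁻¹ • x)) = 1 := by
      unfold ind
      rw [if_pos ⟨hy1, hy2⟩, if_neg (fun h => hy3 h.1), sub_zero]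
    refine ⟨(c ^ Nx)⁻¹ • x, ?_, ?_⟩
    · rw [Set.Finite.mem_toFinset, Function.mem_support, hval]
      norm_num
    · rw [hval]
      norm_num
  intro h0
  have h1 := (flow_add hS c).pow (x := c) rfl k
  rw [h1, h0, smul_zero] at hpos
  exact lt_irrefl _ hpos

lemma const_of {c : H} {d : X} (h : ∀ i : ℤ, (c ^ i • d ∈ S ↔ c • c ^ i • d ∈ S)) (i : ℤ) :
    (c ^ i • d ∈ S ↔ d ∈ S) := by
  induction i using Int.induction_on with
  | zero => rw [zpow_zero, one_smul]
  | succ n ih =>
    have h1 := h n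
    rw [← mul_smul, ← zpow_one_add, add_comm] at h1
    rw [← h1, ih]
  | pred n ih =>
    have h1 := h (-(n : ℤ) - 1)
    rw [← mul_smul, ← zpow_one_add] at h1
    have h2 : 1 + (-(n : ℤ) - 1) = -n := by ring
    rw [h2] at h1
    rw [h1, ih]

/-- the number of points of one orbit which leave the set is bounded -/
lemma orbit_bound (hS : Com H S) {c : H} (h1 : Yp S c = ∅) (h2 : Yp S c⁻¹ = ∅) (d : X) :
    ∃ b : ℕ, ∀ k : ℤ, ∃ U : Finset X, U.card ≤ b ∧
      {x | x ∈ S ∧ c ^ k • x ∉ S ∧ ∃ i : ℤ, x = c ^ i • d} ⊆ U := by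
  by_cases hinj : Function.Injective (fun n : ℤ => c ^ n • d)
  · -- the infinite orbit
    have hfin := (hS.diff c).preimage hinj.injOn
    obtain ⟨N, hN⟩ : ∃ N : ℕ, ∀ n : ℤ, (N : ℤ) ≤ |n| →
        (c ^ n • d ∈ S ↔ c • c ^ n • d ∈ S) := by
      obtain ⟨B, hB⟩ := (hfin.image (fun n : ℤ => |n|)).bddAbove
      refine ⟨B.natAbs + 1, fun n hn => ?_⟩
      by_contra hc
      have h3 : |n| ≤ B := hB (Set.mem_image_of_mem (fun n : ℤ => |n|) (show n ∈ _ from hc))
      have h4 : B ≤ B.natAbs := Int.le_natAbs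
      push_cast at hn
      rw [← Int.natCast_natAbs] at hn
      omega
    have hup : ∀ n : ℤ, (N : ℤ) ≤ n → (c ^ n • d ∈ S ↔ c ^ (N : ℤ) • d ∈ S) := by
      intro n hn
      induction n, hn using Int.leInduction with
      | base => exact Iff.rfl
      | succ n hn ih =>
        have h3 := hN n (hn.trans (le_abs_self n))
        rw [← mul_smul, ← zpow_one_add, add_comm] at h3
        rw [← h3, ih]
    have hdn : ∀ n : ℤ, n ≤ -(N : ℤ) → (c ^ n • d ∈ S ↔ c ^ (-(N : ℤ)) • d ∈ S) := by
      intro n hn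
      induction n, hn using Int.leInductionDown with
      | base => exact Iff.rfl
      | pred n hn ih =>
        have h3 := hN (n - 1) (by rw [le_abs']; left; omega)
        rw [← mul_smul, ← zpow_one_add] at h3
        have h4 : 1 + (n - 1) = n := by ring
        rw [h4] at h3
        rw [h3, ih]
    by_cases hP : c ^ (N : ℤ) • d ∈ S
    · by_cases hQ : c ^ (-(N : ℤ)) • d ∈ S
      · -- both in
        refine ⟨2 * N + 1, fun k => ⟨(Finset.Icc (-(N : ℤ) - k) (N - k)).image
          (fun i : ℤ => c ^ i • d), ?_, ?_⟩⟩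
        · refine Finset.card_image_le.trans ?_
          rw [Int.card_Icc]
          omega
        · rintro x ⟨hx1, hx2, i, rfl⟩
          rw [Finset.mem_coe, Finset.mem_image]
          refine ⟨i, ?_, rfl⟩
          rw [Finset.mem_Icc]
          rw [← mul_smul, ← zpow_add] at hx2
          by_contra hc
          apply hx2
          rcases lt_or_ge (k + i) 0 with h3 | h3
          · exact (hdn _ (by omega)).2 hQ
          · exact (hup _ (by omega)).2 hP
      · exfalso
        have : d ∈ Yp S c⁻¹ := by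
          refine ⟨N, fun n hn => ?_⟩
          constructor
          · rw [inv_pow, inv_inv, ← zpow_natCast]
            exact (hup n (by exact_mod_cast hn)).2 hP
          · rw [inv_pow, ← zpow_natCast, ← zpow_neg]
            exact fun hc => hQ ((hdn (-(n : ℤ)) (by omega)).1 hc)
        rw [h2] at this
        exact this
    · by_cases hQ : c ^ (-(N : ℤ)) • d ∈ S
      · exfalso
        have : d ∈ Yp S c := by
          refine ⟨N, fun n hn => ?_⟩
          constructor
          · rw [← zpow_natCast, ← zpow_neg]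
            exact (hdn (-(n : ℤ)) (by omega)).2 hQ
          · rw [← zpow_natCast]
            exact fun hc => hP ((hup n (by exact_mod_cast hn)).1 hc)
        rw [h1] at this
        exact this
      · -- both out
        refine ⟨2 * N + 1, fun k => ⟨(Finset.Icc (-(N : ℤ)) N).image
          (fun i : ℤ => c ^ i • d), ?_, ?_⟩⟩
        · refine Finset.card_image_le.trans ?_
          rw [Int.card_Icc]
          omega
        · rintro x ⟨hx1, hx2, i, rfl⟩
          rw [Finset.mem_coe, Finset.mem_image]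
          refine ⟨i, ?_, rfl⟩
          rw [Finset.mem_Icc]
          by_contra hc
          rcases lt_or_ge i 0 with h3 | h3
          · exact hQ ((hdn _ (by omega)).1 hx1)
          · exact hP ((hup _ (by omega)).1 hx1)
  · -- the finite orbit
    unfold Function.Injective at hinj
    push Not at hinj
    obtain ⟨a, b, hab, hne⟩ := hinj
    have hm : c ^ (a - b) • d = d := by
      have h3 : c ^ a • d = c ^ b • d := hab
      rw [sub_eq_add_neg, add_comm, zpow_add, mul_smul, h3, zpow_neg, inv_smul_smul]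
    have hmz : ∀ j : ℤ, c ^ ((a - b) * j) • d = d := by
      intro j
      have h3 : c ^ (a - b) ∈ MulAction.stabilizer H d := hm
      rw [zpow_mul]
      exact (MulAction.stabilizer H d).zpow_mem h3 j
    have hab0 : a - b ≠ 0 := sub_ne_zero.2 hne
    refine ⟨(a - b).natAbs, fun k => ⟨(Finset.range (a - b).natAbs).image
      (fun i : ℕ => c ^ i • d), ?_, ?_⟩⟩
    · refine Finset.card_image_le.trans ?_
      rw [Finset.card_range]
    · rintro x ⟨_, _, i, rfl⟩
      rw [Finset.mem_coe, Finset.mem_image]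
      refine ⟨(i % (a - b)).toNat, ?_, ?_⟩
      · rw [Finset.mem_range]
        have h3 := Int.emod_nonneg i hab0
        have h4 := Int.emod_lt_abs i hab0
        rw [← Int.natCast_natAbs] at h4
        omega
      · have h3 := Int.emod_nonneg i hab0
        rw [← zpow_natCast, Int.toNat_of_nonneg h3]
        conv_rhs => rw [← Int.emod_add_mul_ediv i (a - b), zpow_add, mul_smul, hmz]

/-- **commensurated sets** -/
theorem exists_add (hS : Com H S) (c : H)
    (hub : ∀ m : ℕ, ∃ k : ℤ, m < {x | x ∈ S ∧ c ^ k • x ∉ S}.ncard) :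
    ∃ f : H → ℤ, AddOn c f ∧ f c ≠ 0 := by
  by_cases h1 : Yp S c = ∅
  swap
  · obtain ⟨x, hx⟩ := Set.nonempty_iff_ne_empty.2 h1
    exact ⟨flow S c, flow_add hS c, flow_ne hS hx⟩
  by_cases h2 : Yp S c⁻¹ = ∅
  swap
  · obtain ⟨x, hx⟩ := Set.nonempty_iff_ne_empty.2 h2
    have h3 := flow_add hS c⁻¹
    have h4 : AddOn c (flow S c⁻¹) := by
      intro y z hy hz
      have hy' : Commute y c := hy
      have hz' : Commute z c := hz
      exact h3 y z hy'.inv_right hz'.inv_right
    refine ⟨flow S c⁻¹, h4, ?_⟩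
    intro h0
    apply flow_ne hS hx
    have h5 := h4 c c⁻¹ rfl (by group)
    have h6 := h4 1 1 (by group) (by group)
    rw [one_mul] at h6
    rw [mul_inv_cancel, h0, zero_add] at h5
    rw [← h5]
    omega
  exfalso
  have hfin := hS.diff c
  choose bd hbd using orbit_bound hS h1 h2
  obtain ⟨k, hk⟩ := hub (∑ d ∈ hfin.toFinset, bd d)
  choose U hU1 hU2 using fun d => hbd d k
  have h3 : {x | x ∈ S ∧ c ^ k • x ∉ S} ⊆ ((hfin.toFinset.biUnion U : Finset X) : Set X) := by
    rintro x ⟨hx1, hx2⟩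
    have h4 : ∃ i : ℤ, ¬ (c ^ i • x ∈ S ↔ c • c ^ i • x ∈ S) := by
      by_contra hc
      push Not at hc
      have h5 := const_of (S := S) (c := c) (d := x) (fun i => by
        have := hc i
        tauto) k
      exact hx2 (h5.2 hx1)
    obtain ⟨i, hi⟩ := h4
    rw [Finset.mem_coe, Finset.mem_biUnion]
    refine ⟨c ^ i • x, hfin.mem_toFinset.2 hi, ?_⟩
    apply hU2 (c ^ i • x)
    refine ⟨hx1, hx2, -i, ?_⟩
    rw [← mul_smul, ← zpow_add, neg_add_cancel, zpow_zero, one_smul]
  have h4 : {x | x ∈ S ∧ c ^ k • x ∉ S}.ncard ≤ (hfin.toFinset.biUnion U).card := by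
    rw [← Set.ncard_coe_finset]
    exact Set.ncard_le_ncard h3 (Finset.finite_toSet _)
  have h5 : (hfin.toFinset.biUnion U).card ≤ ∑ d ∈ hfin.toFinset, bd d :=
    Finset.card_biUnion_le.trans (Finset.sum_le_sum fun d _ => hU1 d)
  omega

end comm

end Pool.Agent.H414.W2
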