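import Pool.Agent.H414.W2.Step

/-!
# The Dennis trace of the image of an invertible matrix over the group ring of a finite group
-/

set_option autoImplicit false
set_option linter.unusedSectionVars false

namespace Pool.Agent.H414.W2

open Finset H219.Wh Pool.Agent.Y72.Log Pool.Agent.Y72.Dt Pool.Agent.Y72.Tr
open Pool.Agent.H23R2 (InvPair IsCoc DsumZ cf supp invPair_units)
open scoped Classical

section main

variable {Γ : Type*} [Group Γ] {n : ℕ}

/-- the restriction of a cocycle to a set -/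
noncomputable def rsF {M : Type*} [AddCommGroup M] (X : Γ → Prop) (F : Γ → Γ → M) (w x : Γ) : M :=
  if X w then F w x else 0

lemma rsF_coc {M : Type*} [AddCommGroup M] {X : Γ → Prop} (hX : ∀ w x, X (x⁻¹ * w * x) ↔ X w)
    {F : Γ → Γ → M} (hF : IsCoc F) : IsCoc (rsF X F) := by
  intro w x y
  unfold rsF
  by_cases hw : X w
  · rw [if_pos hw, if_pos hw, if_pos ((hX w x).2 hw)]
    exact hF w x y
  · rw [if_neg hw, if_neg hw, if_neg (fun hc => hw ((hX w x).1 hc)), add_zero]

lemma pull_coc {G : Type*} [Group G] (π : Γ →* G) {M : Type*} [AddCommGroup M] {F : G → G → M}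
    (hF : IsCoc F) : IsCoc (fun w x : Γ => F (π w) (π x)) := by
  intro w x y
  show F (π w) (π (x * y)) = F (π w) (π x) + F (π (x⁻¹ * w * x)) (π y)
  rw [map_mul, hF, map_mul, map_mul, map_inv]

lemma conj_l {G : Type*} [Group G] [Finite G] (π : Γ →* G) {l : ℕ} (hl : l ≡ 1 [MOD Nat.card G])
    {x y : Γ} (h : IsConj (x ^ l) (y ^ l)) : IsConj (π x) (π y) := by
  have h1 : ∀ z : G, z ^ l = z := by
    intro z
    have h2 : z ^ l = z ^ 1 := by
      rw [pow_eq_pow_iff_modEq]
      exact hl.of_dvd (orderOf_dvd_natCard _)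
    rw [h2, pow_one]
  have h3 : IsConj (π (x ^ l)) (π (y ^ l)) := π.map_isConj h
  rwa [map_pow, map_pow, h1, h1] at h3

/-- **one block** -/
theorem PD_block (hb : Cen Γ) (A : (Matrix (Fin n) (Fin n) (MonoidAlgebra ℤ Γ))ˣ) {G : Type*}
    [Group G] [Finite G] (π : Γ →* G) {p : ℕ}
    (hp : p.Prime) {N : ℕ} {M : Type} [AddCommGroup M] (hM : ∀ x : M, (p ^ N) • x = 0)
    {l : ℕ} (hl0 : l ≠ 0) (hlG : l ≡ 1 [MOD Nat.card G]) (hl : BP hb A l) {F : G → G → M}
    (hF : IsCoc F) {b : Γ} (hb1 : b ≠ 1) :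
    PD A (rsF (fun w => IsConj b (w ^ l)) (fun w x => F (π w) (π x))) = 0 := by
  have hX : ∀ w x : Γ, IsConj b ((x⁻¹ * w * x) ^ l) ↔ IsConj b (w ^ l) := by
    intro w x
    have h1 : (x⁻¹ * w * x) ^ l = x⁻¹ * w ^ l * x := by
      have := conj_pow (i := l) (a := x⁻¹) (b := w)
      rwa [inv_inv] at this
    rw [h1]
    exact isConj_conj_iff _ _ _
  set H := rsF (fun w => IsConj b (w ^ l)) (fun w x => F (π w) (π x)) with hH
  have hHc : IsCoc H := rsF_coc hX (pull_coc π hF)
  have hst : ∀ j : ℕ, PD A (fun w x => H (w ^ (p ^ j)) x) =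
      PD A (fun w x => H (w ^ (p ^ (j + 1))) x) := by
    intro j
    have h1 := step hb A hp hM hl0 hl (pow_coc hHc (p ^ j)) (by
      intro x y hxy
      show rsF _ _ (x ^ (p ^ j)) x = rsF _ _ (y ^ (p ^ j)) y
      have h2 : IsConj ((x ^ (p ^ j)) ^ l) ((y ^ (p ^ j)) ^ l) := by
        rw [← pow_mul, ← pow_mul, mul_comm (p ^ j) l, pow_mul, pow_mul]
        exact H219.Wh.conj_pow_conj hxy _
      have h3 : IsConj b ((x ^ (p ^ j)) ^ l) ↔ IsConj b ((y ^ (p ^ j)) ^ l) :=
        ⟨fun h => h.trans h2, fun h => h.trans h2.symm⟩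
      unfold rsF
      by_cases h4 : IsConj b ((x ^ (p ^ j)) ^ l)
      · rw [if_pos h4, if_pos (h3.1 h4)]
        show F (π (x ^ p ^ j)) (π x) = F (π (y ^ p ^ j)) (π y)
        rw [map_pow, map_pow]
        exact (coc_conj (pow_coc hF (p ^ j)) (conj_l π hlG hxy)).symm
      · rw [if_neg h4, if_neg (fun hc => h4 (h3.2 hc))])
    rw [h1]
    congr 1
    funext w x
    rw [← pow_mul, pow_succ']
  have all : ∀ j : ℕ, PD A H = PD A (fun w x => H (w ^ (p ^ j)) x) := by
    intro j
    induction j with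
    | zero => simp only [pow_zero, pow_one]
    | succ j ih => rw [ih, hst]
  rw [all (ff hb b b).natAbs]
  apply PD_zero
  intro w x
  rw [hH]
  unfold rsF
  rw [if_neg]
  intro h6
  rw [← pow_mul, mul_comm, pow_mul] at h6
  have h7 := pow_dvd_ff hb hb1 h6
  have h8 : p ^ (ff hb b b).natAbs ∣ (ff hb b b).natAbs := by
    rwa [← Int.natCast_dvd]
  have h9 := Nat.le_of_dvd (Int.natAbs_pos.2 (ff_ne hb hb1)) h8
  have h10 : (ff hb b b).natAbs < p ^ (ff hb b b).natAbs := Nat.lt_pow_self hp.one_lt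
  omega

/-- **The Dennis trace in finite quotients**, small coefficients -/
theorem PD_fin0 (hb : Cen Γ) (A : (Matrix (Fin n) (Fin n) (MonoidAlgebra ℤ Γ))ˣ) {G : Type*}
    [Group G] [Finite G] (π : Γ →* G) {p : ℕ}
    (hp : p.Prime) {N : ℕ} {M : Type} [AddCommGroup M] (hM : ∀ x : M, (p ^ N) • x = 0)
    {F : G → G → M} (hF : IsCoc F) :
    PD A (fun w x => F (π w) (π x)) = F 1 (π (gamA A)) := by
  obtain ⟨l, hlp, hlG, hl⟩ := exists_bp hb A (N := Nat.card G) Nat.card_pos.ne'
  set E : Γ → Γ → M := fun w x => F (π w) (π x) with hE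
  have hEc : IsCoc E := pull_coc π hF
  set U : Finset (ConjClasses Γ) := (TA A).image (fun C => ConjClasses.mk (rep C ^ l)) with hU
  have h1 : PD A E = PD A (clF E (ConjClasses.mk 1)) + ∑ b ∈ U with b ≠ ConjClasses.mk 1,
      PD A (rsF (fun w => IsConj (rep b) (w ^ l)) E) := by
    simp_rw [PD_eq]
    unfold Dsum
    rw [Finset.sum_comm, ← Finset.sum_add_distrib]
    apply Finset.sum_congr rfl
    intro y _
    rw [← Finset.smul_sum, ← smul_add]
    congr 1
    set w := grl (supp A.val ∪ supp (A⁻¹).val) (Kb A) y.2.2.1 *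
      grl (supp A.val ∪ supp (A⁻¹).val) (Kb A) y.2.2.2 with hw
    by_cases hw1 : w = 1
    · rw [Finset.sum_eq_zero]
      · unfold clF
        rw [if_pos (by rw [hw1]), add_zero]
      · intro b hb'
        rw [Finset.mem_filter] at hb'
        unfold rsF
        rw [if_neg]
        intro hc
        apply hb'.2
        rw [hw1, one_pow] at hc
        rw [← mk_out b, isConj_one_left.1 hc]
    · have h2 : clF E (ConjClasses.mk 1) w (grl (supp A.val ∪ supp (A⁻¹).val) (Kb A) y.2.2.1) = 0 := by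
        unfold clF
        rw [if_neg]
        intro hc
        rw [ConjClasses.mk_eq_mk_iff_isConj] at hc
        exact hw1 (isConj_one_left.1 hc)
      rw [h2, zero_add]
      have hmem : ConjClasses.mk (w ^ l) ∈ U.filter (fun b => b ≠ ConjClasses.mk 1) := by
        rw [Finset.mem_filter]
        refine ⟨?_, ?_⟩
        · rw [hU, Finset.mem_image]
          refine ⟨ConjClasses.mk w, mem_T0 _ _, ?_⟩
          rw [ConjClasses.mk_eq_mk_iff_isConj]
          exact H219.Wh.conj_pow_conj (isConj_out w) l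
        · intro hc
          rw [ConjClasses.mk_eq_mk_iff_isConj] at hc
          exact pow_ne hb hw1 hlp.ne_zero (isConj_one_left.1 hc)
      rw [Finset.sum_eq_single_of_mem _ hmem]
      · unfold rsF
        rw [if_pos (isConj_out _)]
      · intro b _ hb'
        unfold rsF
        rw [if_neg]
        intro hc
        exact hb' ((isConj_out_iff b _).1 hc).symm
  rw [h1, PD_one A hEc]
  have h2 : ∑ b ∈ U with b ≠ ConjClasses.mk 1,
      PD A (rsF (fun w => IsConj (rep b) (w ^ l)) E) = 0 := by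
    apply Finset.sum_eq_zero
    intro b hb'
    rw [Finset.mem_filter] at hb'
    exact PD_block hb A π hp hM hlp.ne_zero hlG hl hF (rep_ne hb'.2)
  rw [h2, add_zero, hE]
  simp only [map_one]

/-- **The Dennis trace in finite quotients** -/
theorem PD_fin (hb : Cen Γ) (A : (Matrix (Fin n) (Fin n) (MonoidAlgebra ℤ Γ))ˣ) {G : Type*}
    [Group G] [Finite G] (π : Γ →* G) {p : ℕ} (hp : p.Prime) {N : ℕ} {Λ : Type*} {M : Type*}
    [AddCommGroup M] (κ : Λ → M →+ ZMod (p ^ N)) (hκ : ∀ x : M, (∀ μ, κ μ x = 0) → x = 0)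
    {F : G → G → M} (hF : IsCoc F) :
    PD A (fun w x => F (π w) (π x)) = F 1 (π (gamA A)) := by
  rw [← sub_eq_zero]
  apply hκ
  intro μ
  rw [map_sub, map_PD, sub_eq_zero]
  exact PD_fin0 hb A π hp (N := N) (by
    intro x
    rw [nsmul_eq_mul, ZMod.natCast_self, zero_mul]) (F := fun w x => κ μ (F w x)) (by
    intro w x y
    show κ μ _ = κ μ _ + κ μ _
    rw [← map_add, hF])

end main

section nat

open Pool.Agent.H23R2 (pairing pairing_eq mem_supp)

variable {Γ : Type*} [Group Γ] {n : ℕ}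

lemma PD_pairing (A : (Matrix (Fin n) (Fin n) (MonoidAlgebra ℤ Γ))ˣ) {M : Type*} [AddCommGroup M]
    (F : Γ → Γ → M) : PD A F = pairing (fun g h => F (h * g) h) (A⁻¹).val A.val := by
  rw [pairing_eq _ (A⁻¹).val A.val (supp A.val ∪ supp (A⁻¹).val)
    (fun i j g hg => Finset.mem_union_left _ (mem_supp _ i j g hg))
    (fun i j g hg => Finset.mem_union_right _ (mem_supp _ i j g hg))]
  unfold PD
  congr 1
  funext w x
  rw [mul_inv_cancel_left]

lemma mp_sum {G : Type*} [Group G] (π : Γ →* G) {M : Type*} [AddCommGroup M]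
    (v : MonoidAlgebra ℤ Γ) (h : G → ℤ → M) (h0 : ∀ g, h g 0 = 0)
    (hadd : ∀ g a b, h g (a + b) = h g a + h g b) :
    (mp π v).coeff.sum h = v.coeff.sum (fun g a => h (π g) a) := by
  induction v using MonoidAlgebra.induction_linear with
  | zero => rw [map_zero]; rfl
  | add x y hx hy =>
    rw [map_add, MonoidAlgebra.coeff_add, MonoidAlgebra.coeff_add,
      Finsupp.sum_add_index' h0 hadd, hx, hy,
      Finsupp.sum_add_index' (fun g => h0 _) (fun g => hadd _)]
  | single g a =>
    rw [mp_single, MonoidAlgebra.coeff_single, MonoidAlgebra.coeff_single,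
      Finsupp.sum_single_index (h0 _)]
    symm
    exact Finsupp.sum_single_index (h0 _)

/-- naturality of the pairing -/
theorem PD_mpU (A : (Matrix (Fin n) (Fin n) (MonoidAlgebra ℤ Γ))ˣ) {G : Type*} [Group G]
    (π : Γ →* G) {M : Type*} [AddCommGroup M] (F : G → G → M) :
    PD (mpU π A) F = PD A (fun w x => F (π w) (π x)) := by
  rw [PD_pairing, PD_pairing]
  unfold pairing
  apply Finset.sum_congr rfl
  intro i _
  apply Finset.sum_congr rfl
  intro j _
  have h1 : ((mpU π A)⁻¹).val i j = mp π ((A⁻¹).val i j) := by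
    have h2 : (mpU π A)⁻¹ = mpU π A⁻¹ := (map_inv _ _).symm
    rw [h2]
    rfl
  have h2 : (mpU π A).val j i = mp π (A.val j i) := rfl
  rw [h1, h2, mp_sum]
  · apply Finset.sum_congr rfl
    intro g _
    simp only
    rw [mp_sum]
    · apply Finset.sum_congr rfl
      intro h _
      simp only [map_mul]
    · intro g'
      rw [mul_zero, zero_smul]
    · intro g' a b
      rw [mul_add, add_smul]
  · intro g
    apply Finset.sum_eq_zero
    intro h _
    simp only [zero_mul, zero_smul]
  · intro g a b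
    unfold Finsupp.sum
    rw [← Finset.sum_add_distrib]
    apply Finset.sum_congr rfl
    intro h _
    simp only [add_mul, add_smul]

end nat

end Pool.Agent.H414.W2
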