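import Pool.Agent.H414.W2.Blk
import Pool.Graph.R_seed8.Y72.Tr.Tors

/-!
# The Frobenius relation without diagonal term for cocycles with block invariant diagonal
-/

set_option autoImplicit false
set_option linter.unusedSectionVars false

namespace Pool.Agent.H414.W2

open Finset H219.Wh Pool.Agent.Y72.Log Pool.Agent.Y72.Dt Pool.Agent.Y72.Tr
open Pool.Agent.H23R2 (InvPair IsCoc DsumZ cf supp invPair_units)
open scoped Classical

section main

variable {Γ : Type*} [Group Γ] {n : ℕ}

/-- the classes of the products of two elements of the supports -/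
noncomputable def TA (A : (Matrix (Fin n) (Fin n) (MonoidAlgebra ℤ Γ))ˣ) :
    Finset (ConjClasses Γ) := T0 (grl (supp A.val ∪ supp (A⁻¹).val) (Kb A))

/-- the rational class coefficients -/
noncomputable def eA (hb : Cen Γ) (A : (Matrix (Fin n) (Fin n) (MonoidAlgebra ℤ Γ))ˣ)
    (C : ConjClasses Γ) : ℚ :=
  ec (grl (supp A.val ∪ supp (A⁻¹).val) (Kb A))
      (lett (cf A.val) (supp A.val ∪ supp (A⁻¹).val) (Kb A))
      (lett (cf (A⁻¹).val) (supp A.val ∪ supp (A⁻¹).val) (Kb A)) hb (rep C)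

lemma rep_ne {C : ConjClasses Γ} (hC : C ≠ ConjClasses.mk 1) : rep C ≠ 1 := by
  intro h
  apply hC
  rw [← mk_out C, h]

lemma eA_spec (hb : Cen Γ) (A : (Matrix (Fin n) (Fin n) (MonoidAlgebra ℤ Γ))ˣ)
    {C : ConjClasses Γ} (hC : C ≠ ConjClasses.mk 1) {F : Γ → Γ → ℤ} {f : ℤ}
    (hF : LC (rep C) F f) : ((PD A F : ℤ) : ℚ) = eA hb A C * f := by
  rw [PD_eq]
  exact ec_spec (ip_A A) hb (rep_ne hC) hF

lemma eA_off (hb : Cen Γ) (A : (Matrix (Fin n) (Fin n) (MonoidAlgebra ℤ Γ))ˣ)
    {C : ConjClasses Γ} (hC : C ∉ TA A) : eA hb A C = 0 := ec_off hb hC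

lemma PD_dec (A : (Matrix (Fin n) (Fin n) (MonoidAlgebra ℤ Γ))ˣ) {M : Type*} [AddCommGroup M]
    (F : Γ → Γ → M) : PD A F = ∑ C ∈ TA A, PD A (clF F C) := by
  simp_rw [PD_eq]
  exact Dsum_clF F

lemma PD_zero (A : (Matrix (Fin n) (Fin n) (MonoidAlgebra ℤ Γ))ˣ) {M : Type*} [AddCommGroup M]
    {F : Γ → Γ → M} (h : ∀ w x, F w x = 0) : PD A F = 0 := by
  unfold PD DsumZ
  apply Finset.sum_eq_zero
  intro y _
  rw [h, smul_zero]

lemma PD_off (A : (Matrix (Fin n) (Fin n) (MonoidAlgebra ℤ Γ))ˣ) {M : Type*} [AddCommGroup M]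
    {F : Γ → Γ → M} (h : ∀ w x, ConjClasses.mk w ∈ TA A → F w x = 0) : PD A F = 0 := by
  rw [PD_dec]
  apply Finset.sum_eq_zero
  intro C hC
  apply PD_zero
  intro w x
  unfold clF
  by_cases hw : ConjClasses.mk w = C
  · rw [if_pos hw, h w x (by rw [hw]; exact hC)]
  · rw [if_neg hw]

/-- the exponent of a prime for the blocks -/
def BP (hb : Cen Γ) (A : (Matrix (Fin n) (Fin n) (MonoidAlgebra ℤ Γ))ˣ) (l : ℕ) : Prop :=
  ∀ X : Γ → Prop, Sat l X → ¬ X 1 → ∑ C ∈ TA A with X (rep C), eA hb A C = 0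

theorem exists_bp (hb : Cen Γ) (A : (Matrix (Fin n) (Fin n) (MonoidAlgebra ℤ Γ))ˣ) {N : ℕ}
    (hN : N ≠ 0) : ∃ l : ℕ, l.Prime ∧ l ≡ 1 [MOD N] ∧ BP hb A l :=
  exists_block_prime (ip_A A) hb (fun l hl => lett_pow hl _ _ _) (fun l hl => lett_pow hl _ _ _) hN

lemma LC.pw {c : Γ} {F : Γ → Γ → ℤ} {f : ℤ} (h : LC c F f) {p : ℕ} (hp : p ≠ 0)
    {D : ConjClasses Γ} (hD : ConjClasses.mk (rep D ^ p) = ConjClasses.mk c) :
    ∃ f' : ℤ, LC (rep D) (clF (fun w x => F (w ^ p) x) D) f' ∧ (p : ℤ) * f' = f := by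
  refine ⟨F (rep D ^ p) (rep D), ⟨clF_coc (pow_coc h.coc p) D, ?_, ?_⟩, ?_⟩
  · intro w hw
    have hw1 : ConjClasses.mk w = D := (isConj_out_iff D w).1 hw
    unfold clF
    rw [if_pos hw1]
    exact coc_conj (pow_coc h.coc p) hw
  · intro w x hw
    exact if_neg (fun hc => hw ((isConj_out_iff D w).2 hc))
  · have h1 := h.diag (rep D ^ p) (ConjClasses.mk_eq_mk_iff_isConj.1 hD.symm)
    rw [coc_pow_pow h.coc, nsmul_eq_mul] at h1
    exact h1

lemma PD_pow (hb : Cen Γ) (A : (Matrix (Fin n) (Fin n) (MonoidAlgebra ℤ Γ))ˣ)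
    {C : ConjClasses Γ} (hC : C ≠ ConjClasses.mk 1) {F : Γ → Γ → ℤ} {f : ℤ}
    (hF : LC (rep C) F f) {p : ℕ} (hp : p ≠ 0) :
    ((PD A (fun w x => F (w ^ p) x) : ℤ) : ℚ) =
      (∑ D ∈ TA A with ConjClasses.mk (rep D ^ p) = C, eA hb A D) * (f / p) := by
  rw [PD_dec, Int.cast_sum, Finset.sum_mul, Finset.sum_filter]
  apply Finset.sum_congr rfl
  intro D _
  by_cases hD : ConjClasses.mk (rep D ^ p) = C
  · rw [if_pos hD]
    obtain ⟨f', h1, h2⟩ := LC.pw hF hp (D := D) (by rw [hD, mk_out])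
    have hD1 : D ≠ ConjClasses.mk 1 := by
      rintro rfl
      apply hC
      rw [← hD]
      have h3 : rep (ConjClasses.mk (1 : Γ)) = 1 := by
        have := isConj_out (1 : Γ)
        exact isConj_one_left.1 this
      rw [h3, one_pow]
    rw [eA_spec hb A hD1 h1, ← h2]
    have hp' : (p : ℚ) ≠ 0 := by exact_mod_cast hp
    push_cast
    field_simp
  · rw [if_neg hD]
    have : PD A (clF (fun w x => F (w ^ p) x) D) = 0 := by
      apply PD_zero
      intro w x
      unfold clF
      by_cases hw : ConjClasses.mk w = D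
      · rw [if_pos hw]
        apply hF.off
        intro hc
        apply hD
        have h1 := H219.Wh.conj_pow_conj ((isConj_out_iff D w).2 hw) p
        have h2 : IsConj (rep C) (rep D ^ p) := hc.trans h1.symm
        exact (isConj_out_iff C _).1 h2
      · rw [if_neg hw]
    rw [this, Int.cast_zero]

/-- **the Frobenius relation without diagonal term** -/
theorem step (hb : Cen Γ) (A : (Matrix (Fin n) (Fin n) (MonoidAlgebra ℤ Γ))ˣ) {p : ℕ}
    (hp : p.Prime) {N : ℕ} {M : Type} [AddCommGroup M] (hM : ∀ x : M, (p ^ N) • x = 0)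
    {l : ℕ} (hl0 : l ≠ 0) (hl : BP hb A l) {H : Γ → Γ → M} (hH : IsCoc H)
    (hinv : ∀ x y, IsConj (x ^ l) (y ^ l) → H x x = H y y) :
    PD A H = PD A (fun w x => H (w ^ p) x) := by
  haveI : Fact p.Prime := ⟨hp⟩
  set T1 : Finset (ConjClasses Γ) := TA A ∪ (TA A).image (fun D => ConjClasses.mk (rep D ^ p))
    with hT1
  set K1 : ℕ := ∑ C ∈ T1, (ff hb (rep C) (rep C)).natAbs with hK1
  obtain ⟨Y, W, hYW⟩ := relA A hp (N + K1)
  set YC : ConjClasses Γ → ℤ := fun C => ∑ w ∈ W with ConjClasses.mk w = C, Y w with hYC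
  -- the diagonal term of a cocycle supported on one class
  have hdiagC : ∀ (M' : Type) [AddCommGroup M'] (F : Γ → Γ → M'), IsCoc F →
      ∀ C : ConjClasses Γ, ∑ w ∈ W, Y w • clF F C w w = YC C • F (rep C) (rep C) := by
    intro M' _ F hF C
    rw [hYC]
    simp only
    rw [Finset.sum_smul, Finset.sum_filter]
    apply Finset.sum_congr rfl
    intro w _
    unfold clF
    by_cases hw : ConjClasses.mk w = C
    · rw [if_pos hw, if_pos hw]
      congr 1
      exact coc_conj hF ((isConj_out_iff C w).2 hw)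
    · rw [if_neg hw, if_neg hw, smul_zero]
  have hMp : ∀ x : M, (p ^ (N + K1 + 1)) • x = 0 := by
    intro x
    rw [add_assoc, pow_add, mul_comm, mul_smul, hM, smul_zero]
  have hmain := hYW M hMp H hH
  suffices h0 : ∑ w ∈ W, Y w • H w w = 0 by rw [hmain, h0, add_zero]
  -- the classes outside `T1`
  have hout : ∀ C, C ∉ T1 → YC C • H (rep C) (rep C) = 0 := by
    intro C hC
    have h1 := hYW M hMp _ (clF_coc hH C)
    rw [hdiagC M H hH C] at h1
    have h2 : PD A (clF H C) = 0 := by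
      apply PD_off
      intro w x hw
      unfold clF
      rw [if_neg]
      rintro rfl
      exact hC (Finset.mem_union_left _ hw)
    have h3 : PD A (fun w x => clF H C (w ^ p) x) = 0 := by
      apply PD_off
      intro w x hw
      unfold clF
      rw [if_neg]
      rintro rfl
      apply hC
      apply Finset.mem_union_right
      rw [Finset.mem_image]
      refine ⟨_, hw, ?_⟩
      rw [ConjClasses.mk_eq_mk_iff_isConj]
      exact H219.Wh.conj_pow_conj (isConj_out w) p
    rw [h2, h3, zero_add] at h1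
    exact h1.symm
  -- the classes in `T1`
  have hin : ∀ C ∈ T1, C ≠ ConjClasses.mk 1 → padicNorm p ((YC C : ℚ) - (eA hb A C -
      (∑ D ∈ TA A with ConjClasses.mk (rep D ^ p) = C, eA hb A D) / p)) ≤
      (p : ℚ) ^ (-(N : ℤ)) := by
    intro C hC hC1
    set f := ff hb (rep C) (rep C) with hf
    have hf0 : f ≠ 0 := ff_ne hb (rep_ne hC1)
    have hfq : (f : ℚ) ≠ 0 := by exact_mod_cast hf0
    have hLC : LC (rep C) (cocF (rep C) (ff hb (rep C))) f := LC.of_addOn (ff_add hb (rep_ne hC1))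
    set F := cocF (rep C) (ff hb (rep C)) with hF
    let cst : ℤ →+ ZMod (p ^ (N + K1 + 1)) := Int.castAddHom _
    have hFm : IsCoc (fun w x => cst (F w x)) := by
      intro w x y
      show cst _ = cst _ + cst _
      rw [← map_add, hLC.coc]
    have e3 := hYW (ZMod (p ^ (N + K1 + 1))) (by
      intro x
      rw [nsmul_eq_mul, ZMod.natCast_self, zero_mul]) _ hFm
    rw [← map_PD A cst F, ← map_PD A cst (fun w x => F (w ^ p) x)] at e3
    have e4 : ∑ w ∈ W, Y w • cst (F w w) = cst (YC C * f) := by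
      have h1 := hdiagC ℤ F hLC.coc C
      rw [hLC.diag _ (IsConj.refl _), smul_eq_mul] at h1
      rw [← h1, map_sum]
      apply Finset.sum_congr rfl
      intro w _
      rw [map_zsmul]
      congr 2
      unfold clF
      by_cases hw : ConjClasses.mk w = C
      · rw [if_pos hw]
      · rw [if_neg hw]
        exact hLC.off _ _ (fun hc => hw ((isConj_out_iff C w).1 hc))
    rw [e4, ← map_add] at e3
    have e5 := (ZMod.intCast_eq_intCast_iff_dvd_sub _ _ _).1 e3
    -- divisibility
    have e6 : ((p : ℤ) ^ (N + K1 + 1)) ∣ PD A (fun w x => F (w ^ p) x) + YC C * f - PD A F := by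
      exact_mod_cast e5
    have e7 : ((p : ℤ) ^ (N + K1)) ∣ PD A (fun w x => F (w ^ p) x) + YC C * f - PD A F :=
      (pow_dvd_pow _ (Nat.le_succ _)).trans e6
    have e8 := (padicNorm.dvd_iff_norm_le (p := p)).1 (by exact_mod_cast e7)
    have e9 : ((PD A (fun w x => F (w ^ p) x) + YC C * f - PD A F : ℤ) : ℚ) =
        ((YC C : ℚ) - (eA hb A C -
      (∑ D ∈ TA A with ConjClasses.mk (rep D ^ p) = C, eA hb A D) / p)) * f := by
      push_cast
      rw [PD_pow hb A hC1 hLC hp.ne_zero, eA_spec hb A hC1 hLC]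
      ring
    rw [e9, padicNorm.mul, padicNorm.eq_zpow_of_nonzero hfq, padicValRat.of_int] at e8
    have hv : padicValInt p f ≤ K1 := by
      have h3 : (p : ℤ) ^ padicValInt p f ∣ f := padicValInt_dvd f
      have h4 : p ^ padicValInt p f ∣ f.natAbs := by
        rw [← Int.natCast_dvd]
        exact_mod_cast h3
      have h5 := Nat.le_of_dvd (Int.natAbs_pos.2 hf0) h4
      have h6 : padicValInt p f < p ^ padicValInt p f := Nat.lt_pow_self hp.one_lt
      have h7 : f.natAbs ≤ K1 := by
        rw [hK1, hf]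
        exact Finset.single_le_sum (f := fun C : ConjClasses Γ =>
          (ff hb (rep C) (rep C)).natAbs) (fun _ _ => Nat.zero_le _) hC
      omega
    have hp0 : (0 : ℚ) < p := by exact_mod_cast hp.pos
    have h10 : (0 : ℚ) < (p : ℚ) ^ ((padicValInt p f : ℤ)) := zpow_pos hp0 _
    have h11 := mul_le_mul_of_nonneg_right e8 h10.le
    rw [mul_assoc, ← zpow_add₀ hp0.ne', neg_add_cancel, zpow_zero, mul_one,
      ← zpow_add₀ hp0.ne'] at h11
    refine h11.trans ?_
    apply zpow_le_zpow_right₀ (by exact_mod_cast hp.one_lt.le)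
    push_cast
    have : (padicValInt p f : ℤ) ≤ K1 := by exact_mod_cast hv
    linarith
  -- the sum over a block
  have hblk : ∀ X : Γ → Prop, Sat l X → ¬ X 1 →
      ((p ^ N : ℕ) : ℤ) ∣ ∑ C ∈ T1 with X (rep C), YC C := by
    intro X hXs hX1
    have hX's : Sat l (fun x => X (x ^ p)) := by
      intro x y hxy hx
      apply hXs (x ^ p) (y ^ p) _ hx
      rw [← pow_mul, ← pow_mul, mul_comm p l, pow_mul, pow_mul]
      exact H219.Wh.conj_pow_conj hxy p
    have hX'1 : ¬ X ((1 : Γ) ^ p) := by rwa [one_pow]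
    have s1 := hl X hXs hX1
    have s2 := hl (fun x => X (x ^ p)) hX's hX'1
    -- the sum of the rational numbers
    have s3 : ∑ C ∈ T1 with X (rep C), (eA hb A C -
        (∑ D ∈ TA A with ConjClasses.mk (rep D ^ p) = C, eA hb A D) / p) = 0 := by
      rw [Finset.sum_sub_distrib]
      have s4 : ∑ C ∈ T1 with X (rep C), eA hb A C = 0 := by
        rw [← s1]
        symm
        apply Finset.sum_subset
        · intro C hC
          rw [Finset.mem_filter] at hC ⊢
          exact ⟨Finset.mem_union_left _ hC.1, hC.2⟩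
        · intro C hC hC'
          apply eA_off
          intro hc
          rw [Finset.mem_filter] at hC hC'
          exact hC' ⟨hc, hC.2⟩
      have s5 : ∑ C ∈ T1 with X (rep C),
          (∑ D ∈ TA A with ConjClasses.mk (rep D ^ p) = C, eA hb A D) = 0 := by
        rw [← s2]
        rw [← Finset.sum_fiberwise_of_maps_to
          (s := (TA A).filter (fun C => X ((rep C) ^ p)))
          (t := T1.filter (fun C => X (rep C)))
          (g := fun C => ConjClasses.mk ((rep C) ^ p))]
        · apply Finset.sum_congr rfl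
          intro C hC
          rw [Finset.mem_filter] at hC
          apply Finset.sum_congr _ (fun _ _ => rfl)
          ext D
          simp only [Finset.mem_filter]
          constructor
          · rintro ⟨h1, h2⟩
            refine ⟨⟨h1, ?_⟩, h2⟩
            have h3 : IsConj (rep C) (rep D ^ p) := (isConj_out_iff C _).2 h2
            exact (hXs.conj h3).1 hC.2
          · rintro ⟨⟨h1, _⟩, h2⟩
            exact ⟨h1, h2⟩
        · intro D hD
          rw [Finset.mem_filter] at hD ⊢
          refine ⟨Finset.mem_union_right _ (Finset.mem_image_of_mem _ hD.1), ?_⟩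
          exact (hXs.conj (isConj_out _)).2 hD.2
      rw [s4, ← Finset.sum_div, s5, zero_div, sub_zero]
    have s6 : padicNorm p ((∑ C ∈ T1 with X (rep C), YC C : ℤ) : ℚ) ≤ (p : ℚ) ^ (-(N : ℤ)) := by
      have s7 : ((∑ C ∈ T1 with X (rep C), YC C : ℤ) : ℚ) =
          ∑ C ∈ T1 with X (rep C), ((YC C : ℚ) - (eA hb A C -
            (∑ D ∈ TA A with ConjClasses.mk (rep D ^ p) = C, eA hb A D) / p)) := by
        rw [Finset.sum_sub_distrib, s3, sub_zero, Int.cast_sum]
      rw [s7]
      apply padicNorm.sum_le'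
      · intro C hC
        rw [Finset.mem_filter] at hC
        apply hin C hC.1
        rintro rfl
        have h3 : rep (ConjClasses.mk (1 : Γ)) = 1 := isConj_one_left.1 (isConj_out (1 : Γ))
        rw [h3] at hC
        exact hX1 hC.2
      · positivity
    exact (padicNorm.dvd_iff_norm_le (p := p)).2 s6
  -- the sum over all classes
  have hall : ∑ w ∈ W, Y w • H w w = ∑ C ∈ T1 ∪ W.image ConjClasses.mk,
      YC C • H (rep C) (rep C) := by
    rw [← Finset.sum_fiberwise_of_maps_to (s := W) (t := T1 ∪ W.image ConjClasses.mk)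
      (g := fun w => ConjClasses.mk w)
      (fun w hw => Finset.mem_union_right _ (Finset.mem_image_of_mem _ hw))]
    apply Finset.sum_congr rfl
    intro C _
    rw [hYC]
    simp only
    rw [Finset.sum_smul]
    apply Finset.sum_congr rfl
    intro w hw
    rw [Finset.mem_filter] at hw
    congr 1
    exact coc_conj hH ((isConj_out_iff C w).2 hw.2)
  have hsub : ∑ C ∈ T1, YC C • H (rep C) (rep C) = ∑ C ∈ T1 ∪ W.image ConjClasses.mk,
      YC C • H (rep C) (rep C) :=
    Finset.sum_subset Finset.subset_union_left (fun C _ hC => hout C hC)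
  rw [hall, ← hsub, ← Finset.sum_fiberwise_of_maps_to (s := T1)
    (t := T1.image (fun C => ConjClasses.mk (rep C ^ l)))
    (g := fun C => ConjClasses.mk (rep C ^ l)) (fun C hC => Finset.mem_image_of_mem _ hC)]
  apply Finset.sum_eq_zero
  intro b hbI
  rw [Finset.mem_image] at hbI
  obtain ⟨C0, hC0, hC0b⟩ := hbI
  have h1 : ∑ C ∈ T1 with ConjClasses.mk (rep C ^ l) = b, YC C • H (rep C) (rep C) =
      (∑ C ∈ T1 with ConjClasses.mk (rep C ^ l) = b, YC C) • H (rep C0) (rep C0) := by
    rw [Finset.sum_smul]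
    apply Finset.sum_congr rfl
    intro C hC
    rw [Finset.mem_filter] at hC
    congr 1
    apply hinv
    rw [← ConjClasses.mk_eq_mk_iff_isConj, hC.2, hC0b]
  rw [h1]
  by_cases hb1 : b = ConjClasses.mk 1
  · have h2 : rep C0 = 1 := by
      by_contra hne
      rw [hb1, ConjClasses.mk_eq_mk_iff_isConj] at hC0b
      exact pow_ne hb hne hl0 (isConj_one_left.1 hC0b)
    rw [h2, hH.one, smul_zero]
  · obtain ⟨z, hz⟩ := hblk (fun x => ConjClasses.mk (x ^ l) = b) (by
      intro x y hxy hx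
      show ConjClasses.mk (y ^ l) = b
      rw [← hx]
      exact ConjClasses.mk_eq_mk_iff_isConj.2 hxy.symm) (by
      intro h1
      apply hb1
      rw [← h1, one_pow])
    have hz' : ∑ C ∈ T1 with ConjClasses.mk (rep C ^ l) = b, YC C = ((p ^ N : ℕ) : ℤ) * z := by
      rw [← hz]
      apply Finset.sum_congr _ (fun _ _ => rfl)
      ext C
      simp only [Finset.mem_filter]
    rw [hz', mul_comm, mul_smul, natCast_zsmul, hM, smul_zero]

end main

end Pool.Agent.H414.W2
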